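import Mathlib
import Pool.Agent.TH318.BiExtB

/-!
# MP_b3b95b: bounded extensions of the associated functionals with dense sum exist

The functionals are first extended by Hahn-Banach, then corrected by functionals vanishing on the
closed span of the `x n` so that they tend to zero pointwise on the whole space (weak star
sequential compactness of balls), and then perturbed by a norm convergent series so that they
vanish on vectors which, together with the `x n`, span a dense subspace.
-/

set_option autoImplicit false

open Filter Topology Set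

namespace Pool.Agent.Results.MP_b3b95b_an.DenseExtension

open Pool.Agent.TH318.BiExt

/-- **Affirmative answer to Q1.** Let `E` be a separable Banach space over `ℝ` or `ℂ`, `x n` a
sequence in `E` and `φ n` continuous functionals on its closed linear span with
`φ i (x j) = δ i j` and `‖φ n‖ ≤ D` for all `n` (no bound on `‖x n‖` is needed). Then for every
`ε > 0` there are `f n` in the dual of `E`, extending `φ n`, with `‖f n‖ ≤ 2 * D + ε` for all `n`,
such that the sum of the closed linear span of the `x n` and the common kernel of the `f n` is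
dense in `E`. -/
theorem result (𝕜 : Type) [RCLike 𝕜] (E : Type) [NormedAddCommGroup E] [NormedSpace 𝕜 E]
    [CompleteSpace E] [TopologicalSpace.SeparableSpace E] (x : ℕ → E)
    (φ : ℕ → ((Submodule.span 𝕜 (Set.range x)).topologicalClosure →L[𝕜] 𝕜)) (D : ℝ)
    (hφ : ∀ i j, φ i ⟨x j, Submodule.le_topologicalClosure _
      (Submodule.subset_span ⟨j, rfl⟩)⟩ = if i = j then 1 else 0)
    (hD : ∀ n, ‖φ n‖ ≤ D) (ε : ℝ) (hε : 0 < ε) :
    ∃ f : ℕ → (E →L[𝕜] 𝕜),
      (∀ n, ∀ z : (Submodule.span 𝕜 (Set.range x)).topologicalClosure, f n z = φ n z) ∧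
      (∀ n, ‖f n‖ ≤ 2 * D + ε) ∧
      Dense {z : E | ∃ u ∈ (Submodule.span 𝕜 (Set.range x)).topologicalClosure,
        ∃ v : E, (∀ n, f n v = 0) ∧ z = u + v} := by
  have hext : ∀ n, ∃ g : E →L[𝕜] 𝕜,
      (∀ z : (Submodule.span 𝕜 (Set.range x)).topologicalClosure, g z = φ n z) ∧ ‖g‖ = ‖φ n‖ :=
    fun n => exists_extension_norm_eq _ (φ n)
  choose g hg1 hg2 using hext
  have hgx : ∀ i j, g i (x j) = if i = j then 1 else 0 := by
    intro i j
    rw [← hφ i j, ← hg1 i]
  obtain ⟨f, S, y, -, hf1, hf2, hf3, -, -, hf6⟩ := exists_dense_modification x g D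
    (fun n => (hg2 n).le.trans (hD n)) hgx _ rfl ε hε
  refine ⟨f, fun n z => ?_, hf2, ?_⟩
  · rw [hf1 n z z.2, hg1]
  · intro z
    have hz : z ∈ ((Submodule.span 𝕜 (Set.range x)).topologicalClosure ⊔
        Submodule.span 𝕜 (Set.range y)).topologicalClosure := by
      rw [hf6]; trivial
    rw [← SetLike.mem_coe, Submodule.topologicalClosure_coe] at hz
    refine closure_mono ?_ hz
    intro w hw
    obtain ⟨u, hu, v, hv, rfl⟩ := Submodule.mem_sup.1 hw
    refine ⟨u, hu, v, ?_, rfl⟩
    intro n
    have hle : Submodule.span 𝕜 (Set.range y) ≤ LinearMap.ker (f n).toLinearMap := by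
      rw [Submodule.span_le]
      rintro _ ⟨p, rfl⟩
      exact hf3 n p
    exact hle hv

end Pool.Agent.Results.MP_b3b95b_an.DenseExtension
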